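import Mathlib
import Pool.Agent.Run7.h413.Fin4

set_option autoImplicit false

/-!
# Double successors of singular cardinals: a negative answer from a measurable cardinal
-/

namespace Pool.Agent.Results.MP_2d5209_lc.NegFromMeasurable

open Cardinal Run7.h413

/-- If there is a measurable cardinal, then some forcing notion forces: for some singular cardinal
`κ` of uncountable cofinality, each infinite cardinal `μ < κ` has a `μ⁺⁺`-Aronszajn tree, the
cardinals `μ < κ` with a `μ⁺⁺`-Aronszajn tree form a stationary subset of `κ`, and there is no
`κ⁺⁺`-Aronszajn tree. -/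
theorem result (lam : Cardinal.{0}) (h : Meas lam) :
    ∃ (P : Type) (_ : Preorder P), Nonempty P ∧ ∀ p : P, p ∈ NegA P :=
  Run7.h413.mainA lam h

end Pool.Agent.Results.MP_2d5209_lc.NegFromMeasurable
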